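import Pool.Agent.Helper14K9.Iso.Lim1

/-!
# The non-symmetric `L^p`-Mahler inequality up to `cⁿ`, uniformly in `p`, and the slicing problem

For every convex body `K` of `ℝⁿ` in every position and every `p > 0`,
`M_p(K) ≥ (1/(140 L_K))ⁿ inf_x M_p(Δ_n - x)`, where `L_K = (√(det Cov K)/|K|)^(1/n)` is the
isotropic constant of `K`.  Conversely a number `a ≥ 0` with
`M_p(K - g) ≥ aⁿ inf_x M_p(Δ_n - x)` (`g` the centroid of `K`) for all small `p > 0` satisfies
`a L_K ≤ 33`.  So the inequality of Q1 holds up to a factor `cⁿ` uniformly in `p`, `n` and `K` if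
and only if the isotropic constants of all convex bodies are bounded.
-/

set_option autoImplicit false

noncomputable section

open MeasureTheory
open scoped ENNReal

namespace Pool.Agent.Results.MP_5f4cdd_gt.IsotropicConstant

/-- convex bodies in `ℝⁿ` (in any position) -/
def Body {n : ℕ} (K : Set (Fin n → ℝ)) : Prop := Convex ℝ K ∧ IsCompact K ∧ (interior K).Nonempty

/-- The `L^p`-Mahler volume `M_p(K) = vol(K) ∫ exp(-h_{p,K}(y)) dy` for `0 < p < ∞`, where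
`exp(-h_{p,K}(y)) = ((1/vol K) ∫_K exp(p⟨x,y⟩) dx)^(-1/p)`. -/
def mahlerVolume {n : ℕ} (p : ℝ) (K : Set (Fin n → ℝ)) : ℝ≥0∞ :=
  volume K * ∫⁻ y : Fin n → ℝ, ENNReal.ofReal
    (((∫ x in K, Real.exp (p * ∑ i, x i * y i)) / (volume K).toReal) ^ (-(1 / p)))

/-- the standard simplex `Δ_n` -/
def simplex (n : ℕ) : Set (Fin n → ℝ) := {z | (∀ i, 0 ≤ z i) ∧ ∑ i, z i ≤ 1}

/-- the translate `K - x` -/
def shift {n : ℕ} (K : Set (Fin n → ℝ)) (x : Fin n → ℝ) : Set (Fin n → ℝ) :=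
  (fun z : Fin n → ℝ => z - x) '' K

/-- the infimum of `M_p(Δ_n - x)` over `x ∈ Δ_n`, for `0 < p < ∞` -/
def simplexInf (n : ℕ) (p : ℝ) : ℝ≥0∞ := ⨅ x ∈ simplex n, mahlerVolume p (shift (simplex n) x)

/-- the centroid of `K` -/
def centroid {n : ℕ} (K : Set (Fin n → ℝ)) : Fin n → ℝ :=
  fun i => (∫ x in K, x i) / (volume K).toReal

/-- the covariance matrix of (the uniform distribution on) `K` -/
def covariance {n : ℕ} (K : Set (Fin n → ℝ)) : Matrix (Fin n) (Fin n) ℝ := fun i j =>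
  (∫ x in K, (x i - centroid K i) * (x j - centroid K j)) / (volume K).toReal

/-- the isotropic constant `L_K = (√(det Cov K) / |K|)^(1/n)` -/
def isoConst {n : ℕ} (K : Set (Fin n → ℝ)) : ℝ :=
  (√(covariance K).det / (volume K).toReal) ^ ((n:ℝ)⁻¹)

open Pool.Agent.Helper14K9.Iso
open Pool.Agent.W570.AV (tr)
open Pool.Agent.W570.NQ (mahp)
open Pool.Agent.H131R5.LC (II)

lemma isoConst_eq {n : ℕ} (K : Set (Fin n → ℝ)) : isoConst K = iso K := rfl

lemma simplexInf_eq (n : ℕ) (p : ℝ) : simplexInf n p = II n p := rfl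

lemma shift_zero {n : ℕ} (K : Set (Fin n → ℝ)) : tr 0 K = K := by
  unfold tr
  simp

/-- the lower bound -/
lemma lower {n : ℕ} (hn : 1 ≤ n) {K : Set (Fin n → ℝ)} (hK : Body K) {p : ℝ} (hp : 0 < p) :
    ENNReal.ofReal ((1 / (140 * isoConst K)) ^ n) * simplexInf n p ≤ mahlerVolume p K := by
  have h := low_iso hK.2.1 hK.1 hK.2.2 hn 0 hp
  rw [shift_zero] at h
  exact h

/-- the upper bound for the constant -/
lemma upper {n : ℕ} (hn : 1 ≤ n) {K : Set (Fin n → ℝ)} (hK : Body K) {a p₀ : ℝ} (ha : 0 ≤ a)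
    (hp₀ : 0 < p₀) (h : ∀ p : ℝ, 0 < p → p ≤ p₀ → ENNReal.ofReal (a ^ n) * simplexInf n p ≤
      mahlerVolume p (shift K (centroid K))) : a * isoConst K ≤ 33 := by
  obtain ⟨J, hJ⟩ := exists_nat_gt (1 / min p₀ (1 / 2))
  have hm : 0 < min p₀ (1 / 2) := lt_min hp₀ (by norm_num)
  have hJ0 : (0:ℝ) < J := (one_div_pos.2 hm).trans hJ
  have h1 := lim0 hK.2.1 hK.2.2 hn (c := a / 13) (J := J) (fun j hj => by
    have hj0 : (0:ℝ) < j := hJ0.trans_le (by exact_mod_cast hj)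
    have hjm : 1 / (j:ℝ) ≤ min p₀ (1 / 2) := by
      rw [div_le_iff₀ hj0, ← div_le_iff₀' hm]
      exact hJ.le.trans (by exact_mod_cast hj)
    have h2 := h (1 / (j:ℝ)) (by positivity) (hjm.trans (min_le_left _ _))
    have h3 := II_ge hn (p := 1 / (j:ℝ)) (by positivity) (hjm.trans (min_le_right _ _))
    have hs : 0 < √(j:ℝ) := Real.sqrt_pos.2 hj0
    have hs2 : 0 < √(1 / (j:ℝ)) := Real.sqrt_pos.2 (by positivity)
    have e : (a / 13) ^ n = (1 / √(j:ℝ)) ^ n * (a ^ n * (1 / (13 * √(1 / (j:ℝ)))) ^ n) := by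
      rw [← mul_pow, ← mul_pow]
      congr 1
      have e2 : √(1 / (j:ℝ)) = 1 / √(j:ℝ) := by
        rw [Real.sqrt_div zero_le_one, Real.sqrt_one]
      rw [e2]
      field_simp
    rw [e, ENNReal.ofReal_mul (by positivity), ENNReal.ofReal_mul (by positivity)]
    refine mul_le_mul' le_rfl ?_
    calc ENNReal.ofReal (a ^ n) * ENNReal.ofReal ((1 / (13 * √(1 / (j:ℝ)))) ^ n) ≤
          ENNReal.ofReal (a ^ n) * simplexInf n (1 / (j:ℝ)) := mul_le_mul' le_rfl h3
      _ ≤ _ := h2)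
  have hiso := iso_pos hK.2.1 hK.2.2
  rw [le_div_iff₀ hiso] at h1
  rw [isoConst_eq]
  have h4 : √(2 * Real.pi) ≤ 33 / 13 := by
    rw [Real.sqrt_le_left (by norm_num)]
    have := Real.pi_lt_d2
    norm_num at *
    linarith
  have h5 : a / 13 * iso K = a * iso K / 13 := by ring
  rw [h5, div_le_iff₀ (by norm_num)] at h1
  calc a * iso K ≤ √(2 * Real.pi) * 13 := h1
    _ ≤ 33 / 13 * 13 := by gcongr
    _ = 33 := by norm_num

/-- **The `L^p`-Mahler inequality up to `cⁿ`, uniformly in `p`, and the isotropic constant.** -/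
theorem result :
    -- (1) the lower bound for every convex body in every position and every `p`
    (∀ n : ℕ, 1 ≤ n → ∀ K : Set (Fin n → ℝ), Body K → 0 < isoConst K ∧ ∀ p : ℝ, 0 < p →
      ENNReal.ofReal ((1 / (140 * isoConst K)) ^ n) * simplexInf n p ≤ mahlerVolume p K) ∧
    -- (2) for every body the constant is optimal up to an absolute factor
    (∀ n : ℕ, 1 ≤ n → ∀ K : Set (Fin n → ℝ), Body K → ∀ a p₀ : ℝ, 0 ≤ a → 0 < p₀ →
      (∀ p : ℝ, 0 < p → p ≤ p₀ → ENNReal.ofReal (a ^ n) * simplexInf n p ≤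
        mahlerVolume p (shift K (centroid K))) → a * isoConst K ≤ 33) ∧
    -- (3) the inequality of Q1 up to `cⁿ` for all `p`, `n` and `K` is equivalent to the
    -- boundedness of the isotropic constants
    ((∃ c : ℝ, 0 < c ∧ ∀ n : ℕ, 1 ≤ n → ∀ K : Set (Fin n → ℝ), Body K → ∀ p : ℝ, 0 < p →
      ENNReal.ofReal (c ^ n) * simplexInf n p ≤ mahlerVolume p K) ↔
     (∃ C : ℝ, ∀ n : ℕ, 1 ≤ n → ∀ K : Set (Fin n → ℝ), Body K → isoConst K ≤ C)) := by
  refine ⟨fun n hn K hK => ⟨iso_pos hK.2.1 hK.2.2, fun p hp => lower hn hK hp⟩,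
    fun n hn K hK a p₀ ha hp₀ h => upper hn hK ha hp₀ h, ⟨?_, ?_⟩⟩
  · rintro ⟨c, hc, h⟩
    refine ⟨33 / c, fun n hn K hK => ?_⟩
    rw [le_div_iff₀' hc]
    refine upper hn hK hc.le one_pos fun p hp _ => h n hn _ ?_ p hp
    exact ⟨Pool.Agent.Helper14K9.Iso.tr_conv hK.1 _, Pool.Agent.Helper14K9.Iso.tr_comp hK.2.1 _,
      Pool.Agent.Helper14K9.Iso.tr_int hK.2.2 _⟩
  · rintro ⟨C, h⟩
    refine ⟨1 / (140 * max C 1), by positivity, fun n hn K hK p hp => ?_⟩
    refine le_trans ?_ (lower hn hK hp)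
    have h1 : 0 < isoConst K := iso_pos hK.2.1 hK.2.2
    have h2 : isoConst K ≤ max C 1 := (h n hn K hK).trans (le_max_left _ _)
    gcongr

end Pool.Agent.Results.MP_5f4cdd_gt.IsotropicConstant

end
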