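import Pool.Agent.Helper14K9.Mahler.Shape

/-!
# Stability of the non-symmetric `L^p`-Mahler inequality, uniformly for `p ≥ p₀` and for `p = ∞`

For every `n ≥ 1` there are `p₀, C, c > 0` such that for every convex body `K` of `ℝⁿ` in every
position and every simplex `Q` of least volume containing `K`, with centroid `g`,

* `M_p(K) ≥ (1 + c (|Q|/|K| - 1) + c max(0, D - C/p)) inf_x M_p(Δ_n - x)` for all `p ≥ p₀`,
* `M_∞(K) ≥ (1 + c (|Q|/|K| - 1) + c D) inf_x M_∞(Δ_n - x)`,

where `D ≥ 0` is the least number with `Q ⊆ g + (1 + D)(K - g)`.  Conversely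
`M_p(K - g) ≤ (1 + D)^(n(1+1/p)) inf_x M_p(Δ_n - x)`, so that for `p = ∞` the relative deficit of
the best position of `K` is comparable to `D`.  For `p = ∞` this contains Mahler's inequality for
all convex bodies with its case of equality (the simplices with centroid at the origin).
-/

set_option autoImplicit false

noncomputable section

open MeasureTheory
open scoped ENNReal Pointwise

namespace Pool.Agent.Results.MP_5f4cdd_gt.Stability

/-- convex bodies in `ℝⁿ` (in any position) -/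
def Body {n : ℕ} (K : Set (Fin n → ℝ)) : Prop := Convex ℝ K ∧ IsCompact K ∧ (interior K).Nonempty

/-- The `L^p`-Mahler volume `M_p(K) = vol(K) ∫ exp(-h_{p,K}(y)) dy` for `0 < p < ∞`, where
`exp(-h_{p,K}(y)) = ((1/vol K) ∫_K exp(p⟨x,y⟩) dx)^(-1/p)`. -/
def mahlerVolume {n : ℕ} (p : ℝ) (K : Set (Fin n → ℝ)) : ℝ≥0∞ :=
  volume K * ∫⁻ y : Fin n → ℝ, ENNReal.ofReal
    (((∫ x in K, Real.exp (p * ∑ i, x i * y i)) / (volume K).toReal) ^ (-(1 / p)))

/-- The classical Mahler volume `M_∞(K) = vol(K) ∫ exp(-h_K(y)) dy` (the case `p = ∞`), where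
`h_K(y) = sup_{x ∈ K} ⟨x, y⟩`. -/
def mahlerInf {n : ℕ} (K : Set (Fin n → ℝ)) : ℝ≥0∞ :=
  volume K * ∫⁻ y : Fin n → ℝ, ENNReal.ofReal
    (Real.exp (-(sSup ((fun x : Fin n → ℝ => ∑ i, x i * y i) '' K))))

/-- the standard simplex `Δ_n` -/
def simplex (n : ℕ) : Set (Fin n → ℝ) := {z | (∀ i, 0 ≤ z i) ∧ ∑ i, z i ≤ 1}

/-- the translate `K - x` -/
def shift {n : ℕ} (K : Set (Fin n → ℝ)) (x : Fin n → ℝ) : Set (Fin n → ℝ) :=
  (fun z : Fin n → ℝ => z - x) '' K

/-- the infimum of `M_p(Δ_n - x)` over `x ∈ Δ_n`, for `0 < p < ∞` -/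
def simplexInf (n : ℕ) (p : ℝ) : ℝ≥0∞ := ⨅ x ∈ simplex n, mahlerVolume p (shift (simplex n) x)

/-- the infimum of `M_∞(Δ_n - x)` over `x ∈ Δ_n` -/
def simplexInfTop (n : ℕ) : ℝ≥0∞ := ⨅ x ∈ simplex n, mahlerInf (shift (simplex n) x)

/-- `K` is a simplex with centroid at the origin: the convex hull of `n + 1` affinely independent
points whose sum is `0` -/
def CentredSimplex {n : ℕ} (K : Set (Fin n → ℝ)) : Prop :=
  ∃ v : Fin (n + 1) → (Fin n → ℝ), AffineIndependent ℝ v ∧ ∑ i, v i = 0 ∧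
    K = convexHull ℝ (Set.range v)

/-- the points `v i` are the vertices of a simplex which contains `K` and has the least volume
among all simplices containing `K` -/
def SmallestSimplex {n : ℕ} (K : Set (Fin n → ℝ)) (v : Fin (n + 1) → (Fin n → ℝ)) : Prop :=
  AffineIndependent ℝ v ∧ K ⊆ convexHull ℝ (Set.range v) ∧
    ∀ w : Fin (n + 1) → (Fin n → ℝ), AffineIndependent ℝ w →
      K ⊆ convexHull ℝ (Set.range w) →
        volume (convexHull ℝ (Set.range v)) ≤ volume (convexHull ℝ (Set.range w))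

/-- the centroid `g` of the simplex with the vertices `v i` -/
def centroid {n : ℕ} (v : Fin (n + 1) → (Fin n → ℝ)) : Fin n → ℝ :=
  ((n : ℝ) + 1)⁻¹ • ∑ i, v i

/-- `|Q|/|K| - 1` for the simplex `Q` with the vertices `v i` -/
def excess {n : ℕ} (K : Set (Fin n → ℝ)) (v : Fin (n + 1) → (Fin n → ℝ)) : ℝ :=
  volume.real (convexHull ℝ (Set.range v)) / volume.real K - 1

/-- the simplex `Q` with the vertices `v i` lies in the homothetic copy `g + (1 + d) (K - g)` of
`K`, where `g` is the centroid of `Q` -/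
def Within {n : ℕ} (K : Set (Fin n → ℝ)) (v : Fin (n + 1) → (Fin n → ℝ)) (d : ℝ) : Prop :=
  ∀ x ∈ convexHull ℝ (Set.range v), centroid v + (1 + d)⁻¹ • (x - centroid v) ∈ K

/-- the least `d ≥ 0` such that `Q ⊆ g + (1 + d) (K - g)` -/
def deviation {n : ℕ} (K : Set (Fin n → ℝ)) (v : Fin (n + 1) → (Fin n → ℝ)) : ℝ :=
  sInf {d : ℝ | 0 ≤ d ∧ Within K v d}

open Pool.Agent.Helper14K9.ST
open Pool.Agent.H131R5.LM (Mp Sn Dn image_Dn NB_Sn center_mem)
open Pool.Agent.W679.B (VS VS_pos lam)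
open Pool.Agent.TH649.LOC (vx)

/-- the value of the infimum is the value at the centroid -/
lemma infp_eq {n : ℕ} {p : ℝ} (hp : 0 < p) : simplexInf n p = Mp p (Sn n) := by
  apply le_antisymm
  · have h2 := iInf₂_le (f := fun (x : Fin n → ℝ) (_ : x ∈ simplex n) =>
      mahlerVolume p (shift (simplex n) x)) _ (center_mem (n := n))
    rw [← image_Dn]
    exact h2
  · refine le_iInf₂ fun x _ => ?_
    have h := Pool.Agent.TH649.LOC.Mp_shift_le (n := n) hp (x - fun _ => 1 / ((n:ℝ) + 1))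
    have e : (fun y : Fin n → ℝ => y - (x - fun _ => 1 / ((n:ℝ) + 1))) '' Sn n =
        shift (simplex n) x := by
      rw [← image_Dn, Set.image_image]
      refine Set.image_congr fun z _ => ?_
      abel
    rw [e] at h
    exact h

lemma shift_simplex {n : ℕ} (x : Fin n → ℝ) :
    shift (simplex n) x = (fun y : Fin n → ℝ => y - (x - fun _ => 1 / ((n:ℝ) + 1))) '' Sn n := by
  rw [← image_Dn, Set.image_image]
  refine Set.image_congr fun z _ => ?_
  abel

lemma body_shift {n : ℕ} {K : Set (Fin n → ℝ)} (hK : Body K) (x : Fin n → ℝ) :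
    Body (shift K x) := by
  have e : shift K x = (fun z => -x + z) '' K := by
    refine Set.image_congr fun z _ => ?_
    abel
  refine ⟨?_, hK.2.1.image (by fun_prop), ?_⟩
  · rw [e]
    exact hK.1.translate _
  · have h1 : (fun z : Fin n → ℝ => z - x) '' interior K ⊆ interior (shift K x) := by
      apply interior_maximal (Set.image_mono interior_subset)
      exact (Homeomorph.subRight x).isOpenMap _ isOpen_interior
    exact (hK.2.2.image _).mono h1

/-- the value of the infimum, `p = ∞` -/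
lemma inft_eq {n : ℕ} :
    simplexInfTop n = ENNReal.ofReal (((n:ℝ) + 1) ^ (n + 1) / n.factorial) := by
  apply le_antisymm
  · have h2 := iInf₂_le (f := fun (x : Fin n → ℝ) (_ : x ∈ simplex n) =>
      mahlerInf (shift (simplex n) x)) _ (center_mem (n := n))
    refine h2.trans (le_of_eq ?_)
    have e : shift (simplex n) (fun _ => 1 / ((n:ℝ) + 1)) = Sn n := image_Dn
    rw [e]
    exact mah_Sn
  · refine le_iInf₂ fun x _ => ?_
    have hS : Body (Sn n) :=
      ⟨(NB_Sn (n := n)).conv, (NB_Sn (n := n)).comp, ⟨0, (NB_Sn (n := n)).zero⟩⟩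
    rw [shift_simplex]
    have h := body_shift hS (x - fun _ => 1 / ((n:ℝ) + 1))
    exact mahler_low h.2.1 h.1 h.2.2

variable {n : ℕ} {K : Set (Fin n → ℝ)} {v : Fin (n + 1) → (Fin n → ℝ)}

/-- the position of a smallest simplex -/
lemma least (h : SmallestSimplex K v) : ∃ M : (Fin n → ℝ) ≃ₗ[ℝ] (Fin n → ℝ),
    convexHull ℝ (Set.range v) = (fun c => centroid v + M c) '' Sn n ∧
      Least K M (centroid v) := by
  obtain ⟨M, hM⟩ := aff_of_indep h.1
  exact ⟨M, hM, least_of h.2.1 h.2.2 hM⟩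

lemma within_iff {M : (Fin n → ℝ) ≃ₗ[ℝ] (Fin n → ℝ)}
    (hM : convexHull ℝ (Set.range v) = (fun c => centroid v + M c) '' Sn n) (d : ℝ) :
    Within K v d ↔ ∀ c ∈ Sn n, (1 + d)⁻¹ • c ∈ pre K M (centroid v) := by
  unfold Within
  rw [hM]
  constructor
  · intro h c hc
    have := h _ ⟨c, hc, rfl⟩
    simp only [add_sub_cancel_left] at this
    show centroid v + M ((1 + d)⁻¹ • c) ∈ K
    rw [map_smul]
    exact this
  · rintro h _ ⟨c, hc, rfl⟩
    simp only [add_sub_cancel_left]
    have := h c hc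
    rw [← map_smul]
    exact this

/-- the deviation is at most the deviation at a vertex -/
lemma dev_le (hn : 1 ≤ n) (hK : Body K) (h : SmallestSimplex K v)
    {M : (Fin n → ℝ) ≃ₗ[ℝ] (Fin n → ℝ)}
    (hM : convexHull ℝ (Set.range v) = (fun c => centroid v + M c) '' Sn n)
    (hL : Least K M (centroid v)) :
    ∃ i : Fin (n + 1), Within K v (max 0 (gauge (pre K M (centroid v)) (vx n i) - 1)) ∧
      deviation K v ≤ max 0 (gauge (pre K M (centroid v)) (vx n i) - 1) := by
  obtain ⟨m, rfl⟩ : ∃ m, n = m + 1 := ⟨n - 1, by omega⟩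
  obtain ⟨hNB, -, -, -⟩ := pre_facts hK.2.1 hK.1 hL
  set K' := pre K M (centroid v) with hK'
  obtain ⟨i0, -, hi0⟩ := Finset.exists_max_image (Finset.univ : Finset (Fin (m + 1 + 1)))
    (fun i => gauge K' (vx (m + 1) i)) ⟨0, Finset.mem_univ _⟩
  set d : ℝ := max 0 (gauge K' (vx (m + 1) i0) - 1) with hd
  have hd0 : 0 ≤ d := le_max_left _ _
  have hw : Within K v d := by
    rw [within_iff hM]
    intro c hc
    have h1 : gauge K' c ≤ 1 + d := by
      refine Pool.Agent.TH692.LOC_LOCAL.gauge_le_max hNB (fun i => ?_) hc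
      have h2 := hi0 i (Finset.mem_univ i)
      have h3 : gauge K' (vx (m + 1) i0) - 1 ≤ d := le_max_right _ _
      linarith
    rw [← hK', Pool.Agent.W679.B.mem_gauge hNB, gauge_smul_of_nonneg (by positivity),
      smul_eq_mul, inv_mul_le_iff₀ (by positivity), mul_one]
    exact h1
  exact ⟨i0, hw, csInf_le ⟨0, fun x hx => hx.1⟩ ⟨hd0, hw⟩⟩

/-- the deviation is attained -/
lemma dev_attained (hn : 1 ≤ n) (hK : Body K) (h : SmallestSimplex K v) :
    0 ≤ deviation K v ∧ Within K v (deviation K v) := by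
  obtain ⟨M, hM, hL⟩ := least h
  obtain ⟨i, hw, -⟩ := dev_le hn hK h hM hL
  have hne : {d : ℝ | 0 ≤ d ∧ Within K v d}.Nonempty := ⟨_, le_max_left _ _, hw⟩
  have hcl : IsClosed {d : ℝ | 0 ≤ d ∧ Within K v d} := by
    have e : {d : ℝ | 0 ≤ d ∧ Within K v d} = Set.Ici 0 ∩
        ⋂ x ∈ convexHull ℝ (Set.range v),
          {d : ℝ | centroid v + (1 + max 0 d)⁻¹ • (x - centroid v) ∈ K} := by
      ext d
      simp only [Set.mem_inter_iff, Set.mem_Ici, Set.mem_iInter]
      constructor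
      · rintro ⟨h1, h2⟩
        refine ⟨h1, fun x hx => ?_⟩
        show centroid v + (1 + max 0 d)⁻¹ • (x - centroid v) ∈ K
        rw [max_eq_right h1]
        exact h2 x hx
      · rintro ⟨h1, h2⟩
        refine ⟨h1, fun x hx => ?_⟩
        have h3 : centroid v + (1 + max 0 d)⁻¹ • (x - centroid v) ∈ K := h2 x hx
        rw [max_eq_right h1] at h3
        exact h3
    rw [e]
    refine isClosed_Ici.inter (isClosed_biInter fun x _ => ?_)
    refine hK.2.1.isClosed.preimage ?_
    have h1 : Continuous fun d : ℝ => (1 + max 0 d)⁻¹ := by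
      refine Continuous.inv₀ (by fun_prop) fun d => ?_
      have := le_max_left 0 d
      linarith
    exact continuous_const.add (h1.smul continuous_const)
  exact hcl.csInf_mem hne ⟨0, fun x hx => hx.1⟩

lemma shift_pre (M : (Fin n → ℝ) ≃ₗ[ℝ] (Fin n → ℝ)) (g : Fin n → ℝ) :
    shift K g = M '' pre K M g := by
  unfold shift
  conv_lhs => rw [← pre_image (K := K) (M := M) (x0 := g)]
  rw [Set.image_image]
  simp

/-- the bodies in the special position contain a copy of the simplex -/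
lemma small_facts {M : (Fin n → ℝ) ≃ₗ[ℝ] (Fin n → ℝ)}
    (hM : convexHull ℝ (Set.range v) = (fun c => centroid v + M c) '' Sn n)
    (hL : Least K M (centroid v)) {d : ℝ} (hd : 0 ≤ d) (hw : Within K v d) :
    (1 + d)⁻¹ • Sn n ⊆ pre K M (centroid v) ∧
      (volume (pre K M (centroid v))).toReal ≤
        (1 + d) ^ n * (volume ((1 + d)⁻¹ • Sn n : Set (Fin n → ℝ))).toReal := by
  rw [within_iff hM] at hw
  refine ⟨?_, ?_⟩
  · rintro _ ⟨c, hc, rfl⟩
    exact hw c hc
  · rw [Measure.addHaar_smul, Module.finrank_pi, Fintype.card_fin, ENNReal.toReal_mul,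
      ENNReal.toReal_ofReal (abs_nonneg _), abs_of_pos (by positivity), ← mul_assoc, inv_pow,
      mul_inv_cancel₀ (by positivity), one_mul]
    exact ENNReal.toReal_mono (NB_Sn (n := n)).comp.measure_lt_top.ne (measure_mono (pre_sub hL))

/-- **Stability of the non-symmetric `L^p`-Mahler inequality, for all `p ≥ p₀(n)` and `p = ∞`.** -/
theorem result :
    -- every body lies in a smallest simplex; the least `D` with `Q ⊆ g + (1+D)(K-g)` exists
    (∀ n : ℕ, ∀ K : Set (Fin n → ℝ), Body K → ∃ v, SmallestSimplex K v) ∧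
    (∀ n : ℕ, 1 ≤ n → ∀ K : Set (Fin n → ℝ), Body K → ∀ v, SmallestSimplex K v →
      0 ≤ deviation K v ∧ Within K v (deviation K v)) ∧
    -- (1) stability, for all `p ≥ p₀` and for `p = ∞`
    (∀ n : ℕ, 1 ≤ n → ∃ p₀ C c : ℝ, 0 < p₀ ∧ 0 < C ∧ 0 < c ∧
      ∀ K : Set (Fin n → ℝ), Body K → ∀ v, SmallestSimplex K v →
        (∀ p : ℝ, p₀ ≤ p →
          ENNReal.ofReal (1 + c * (excess K v + max 0 (deviation K v - C / p))) *
            simplexInf n p ≤ mahlerVolume p K) ∧
        ENNReal.ofReal (1 + c * (excess K v + deviation K v)) * simplexInfTop n ≤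
          mahlerInf K) ∧
    -- (2) upper bounds for the position with the centroid of the simplex at the origin
    (∀ n : ℕ, 1 ≤ n → ∀ K : Set (Fin n → ℝ), Body K → ∀ v, SmallestSimplex K v →
      (∀ p : ℝ, 0 < p → mahlerVolume p (shift K (centroid v)) ≤
        ENNReal.ofReal ((1 + deviation K v) ^ (n * (1 + 1 / p))) * simplexInf n p) ∧
      mahlerInf (shift K (centroid v)) ≤
        ENNReal.ofReal ((1 + deviation K v) ^ n) * simplexInfTop n) ∧
    -- (3) the case of equality for `p = ∞`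
    (∀ n : ℕ, 1 ≤ n → ∀ K : Set (Fin n → ℝ), Body K →
      simplexInfTop n ≤ mahlerInf K ∧ (mahlerInf K = simplexInfTop n ↔ CentredSimplex K)) := by
  refine ⟨fun n K hK => exists_vertices hK.2.1 hK.2.2,
    fun n hn K hK v hv => dev_attained hn hK hv, fun n hn => ?_, fun n hn K hK v hv => ?_,
    fun n hn K hK => ?_⟩
  · obtain ⟨p0, C, θ, hp0, hC, hθ, hfin⟩ := posS hn
    obtain ⟨θ', hθ', hinf⟩ := posInf hn
    have hn1 : (1:ℝ) ≤ n := by exact_mod_cast hn
    have hP : (1:ℝ) ≤ ((n : ℝ) ^ 2) ^ n := one_le_pow₀ (one_le_pow₀ hn1)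
    set P : ℝ := ((n : ℝ) ^ 2) ^ n with hPd
    have hP0 : 0 < P := by linarith
    set t : ℝ := min θ θ' with ht
    have ht0 : 0 < t := lt_min hθ hθ'
    have htP : t / P ≤ t := div_le_self ht0.le hP
    refine ⟨p0, C, t / P, hp0, hC, by positivity, fun K hK v hv => ?_⟩
    obtain ⟨M, hM, hL⟩ := least hv
    obtain ⟨i, hw, hdi⟩ := dev_le hn hK hv hM hL
    have hex : excess K v ≤ P * ((volume (Sn n \ pre K M (centroid v))).toReal / VS n) := by
      unfold excess
      rw [hM]
      exact Pool.Agent.Helper14K9.ST.excess hn hK.2.1 hK.1 hK.2.2 hL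
    set a : ℝ := (volume (Sn n \ pre K M (centroid v))).toReal / VS n with ha
    have hV := VS_pos n
    have ha0 : 0 ≤ a := by positivity
    set b : ℝ := gauge (pre K M (centroid v)) (vx n i) - 1 with hb
    have key : ∀ s r : ℝ, t ≤ s → 0 ≤ r →
        1 + t / P * (excess K v + max 0 (deviation K v - r)) ≤
          Real.exp (s * (a + max 0 (b - r))) := by
      intro s r hs hr
      have h1 : max 0 (deviation K v - r) ≤ max 0 (b - r) := by
        apply max_le (le_max_left _ _)
        rcases le_total b 0 with h | h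
        · rw [max_eq_left h] at hdi
          exact le_trans (by linarith) (le_max_left _ _)
        · rw [max_eq_right h] at hdi
          exact le_trans (by linarith) (le_max_right _ _)
      have h2 : (0:ℝ) ≤ max 0 (b - r) := le_max_left _ _
      have h3 : t / P * excess K v ≤ t * a := by
        calc t / P * excess K v ≤ t / P * (P * a) :=
              mul_le_mul_of_nonneg_left hex (by positivity)
          _ = t * a := by field_simp
      have h4 : t / P * max 0 (deviation K v - r) ≤ t * max 0 (b - r) :=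
        mul_le_mul htP h1 (le_max_left _ _) ht0.le
      have h5 : t * (a + max 0 (b - r)) ≤ s * (a + max 0 (b - r)) :=
        mul_le_mul_of_nonneg_right hs (by positivity)
      have h6 := Real.add_one_le_exp (s * (a + max 0 (b - r)))
      calc 1 + t / P * (excess K v + max 0 (deviation K v - r)) ≤
            1 + t * (a + max 0 (b - r)) := by linarith
        _ ≤ _ := by linarith
    refine ⟨fun p hp => ?_, ?_⟩
    · have hp' : 0 < p := lt_of_lt_of_le hp0 hp
      rw [infp_eq hp']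
      refine le_trans ?_ (hfin p hp K hK.2.1 hK.1 hK.2.2 M (centroid v) hL i)
      exact mul_le_mul' (ENNReal.ofReal_le_ofReal
        (key θ (C / p) (min_le_left _ _) (by positivity))) le_rfl
    · rw [inft_eq]
      refine le_trans ?_ (hinf K hK.2.1 hK.1 hK.2.2 M (centroid v) hL i)
      have h1 := key θ' 0 (min_le_right _ _) le_rfl
      rw [sub_zero, sub_zero, max_eq_right (dev_attained hn hK hv).1] at h1
      exact mul_le_mul' (ENNReal.ofReal_le_ofReal h1) le_rfl
  · obtain ⟨M, hM, hL⟩ := least hv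
    obtain ⟨hd0, hw⟩ := dev_attained hn hK hv
    obtain ⟨hsub, hvol⟩ := small_facts hM hL hd0 hw
    obtain ⟨m, rfl⟩ : ∃ m, n = m + 1 := ⟨n - 1, by omega⟩
    obtain ⟨hNB, -, -, -⟩ := pre_facts hK.2.1 hK.1 hL
    set d : ℝ := deviation K v with hd
    have hd1 : (0:ℝ) < (1 + d)⁻¹ := by positivity
    have hd1' : (0:ℝ) < (1 + d) ^ (m + 1) := by positivity
    set A : (Fin (m + 1) → ℝ) ≃ₗ[ℝ] (Fin (m + 1) → ℝ) :=
      LinearEquiv.smulOfNeZero ℝ (Fin (m + 1) → ℝ) (1 + d)⁻¹ hd1.ne' with hA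
    have hAe : A '' Sn (m + 1) = (1 + d)⁻¹ • Sn (m + 1) := rfl
    have hNS := NB_Sn (n := m + 1)
    have hNL : H801NS.NB ((1 + d)⁻¹ • Sn (m + 1) : Set (Fin (m + 1) → ℝ)) := by
      refine ⟨hNS.comp.smul _, hNS.conv.smul _, ?_⟩
      rw [interior_smul₀ hd1.ne']
      exact ⟨0, hNS.zero, smul_zero _⟩
    refine ⟨fun p hp => ?_, ?_⟩
    · rw [infp_eq hp, shift_pre M]
      have h1 : mahlerVolume p (M '' pre K M (centroid v)) = Mp p (pre K M (centroid v)) :=
        Pool.Agent.H131R5.LC.Mp_image hp M hNB.comp ⟨0, hNB.zero⟩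
      rw [h1]
      refine (Mp_nested hp hNB.comp hNL.comp ⟨0, hNL.zero⟩ hsub hd1' hvol).trans
        (le_of_eq ?_)
      rw [← hAe, Pool.Agent.H131R5.LC.Mp_image hp A hNS.comp ⟨0, hNS.zero⟩,
        ← Real.rpow_natCast (1 + d) (m + 1), ← Real.rpow_mul (by positivity)]
    · rw [inft_eq, shift_pre M]
      have h1 : mahlerInf (M '' pre K M (centroid v)) =
          Pool.Agent.W570.AV.mah (pre K M (centroid v)) := mah_image M hNB
      rw [h1]
      refine (mah_nested hNB hNL hsub hd1' hvol).trans (le_of_eq ?_)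
      rw [← hAe, mah_image A hNS, mah_Sn]
  · rw [inft_eq]
    exact ⟨mahler_low hK.2.1 hK.1 hK.2.2, mah_eq_iff hn hK.2.1 hK.1 hK.2.2⟩

end Pool.Agent.Results.MP_5f4cdd_gt.Stability
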